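import Mathlib

/-!
# Characters of the binary cube and Krawtchouk numbers
-/

namespace Pool.Agent.DEC

open Finset

variable {n : ℕ}

/-- the sign of a bit -/
def sg (b : Bool) : ℤ := if b then -1 else 1

/-- the character of the cube attached to a set of coordinates -/
def chi (u : Finset (Fin n)) (x : Fin n → Bool) : ℤ := ∏ i ∈ u, sg (x i)

/-- Krawtchouk numbers, by the Pascal recursion for `(1 + X) ^ (n - w) (1 - X) ^ w`.  The list
`kl s` holds the coefficients of the product of the factors `1 + e X`, `e` in `s`. -/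
def kstep (e : ℤ) (l : List ℤ) : List ℤ := List.zipWith (· + ·) (l ++ [0]) (0 :: l.map (e * ·))

theorem chi_empty (x : Fin n → Bool) : chi ∅ x = 1 := by simp [chi]

theorem sg_mul_sg (a b : Bool) : sg a * sg b = if a = b then 1 else -1 := by
  cases a <;> cases b <;> simp [sg]

theorem sg_sq (a : Bool) : sg a * sg a = 1 := by cases a <;> simp [sg]

theorem chi_mul_chi (u : Finset (Fin n)) (x y : Fin n → Bool) :
    chi u x * chi u y = ∏ i ∈ u, (if x i = y i then (1 : ℤ) else -1) := by
  unfold chi
  rw [← Finset.prod_mul_distrib]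
  exact Finset.prod_congr rfl fun i _ => sg_mul_sg _ _

/-- orthogonality of the characters -/
theorem sum_chi_mul_chi (u v : Finset (Fin n)) :
    ∑ x : Fin n → Bool, chi u x * chi v x = if u = v then (2 : ℤ) ^ n else 0 := by
  classical
  have key : ∀ x : Fin n → Bool, chi u x * chi v x =
      ∏ i : Fin n, ((if i ∈ u then sg (x i) else 1) * (if i ∈ v then sg (x i) else 1)) := by
    intro x
    rw [Finset.prod_mul_distrib]
    unfold chi
    rw [Finset.prod_ite_mem, Finset.prod_ite_mem]
    simp
  simp_rw [key]
  have h := Finset.prod_univ_sum (R := ℤ) (ι := Fin n) (κ := fun _ => Bool)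
    (t := fun _ => Finset.univ)
    (f := fun i b => (if i ∈ u then sg b else 1) * (if i ∈ v then sg b else 1))
  rw [Fintype.piFinset_univ] at h
  rw [← h]
  split_ifs with huv
  · subst huv
    have : ∀ i : Fin n, (∑ j : Bool, ((if i ∈ u then sg j else 1) * (if i ∈ u then sg j else 1)))
        = 2 := by
      intro i
      by_cases hi : i ∈ u <;> simp [hi, sg]
    rw [Finset.prod_congr rfl fun i _ => this i]
    simp
  · have hex : ∃ i, ¬ (i ∈ u ↔ i ∈ v) := by
      by_contra hcon
      push Not at hcon
      exact huv (Finset.ext hcon)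
    obtain ⟨i, hi⟩ := hex
    apply Finset.prod_eq_zero (Finset.mem_univ i)
    by_cases hu : i ∈ u <;> by_cases hv : i ∈ v <;> simp_all [sg]

theorem sum_chi (u : Finset (Fin n)) (hu : u ≠ ∅) : ∑ x : Fin n → Bool, chi u x = 0 := by
  have h := sum_chi_mul_chi u (∅ : Finset (Fin n))
  rw [if_neg hu] at h
  simpa [chi_empty] using h

end Pool.Agent.DEC
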