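import Pool.Agent.DEC.Basic

/-!
# Krawtchouk numbers as coefficient lists
-/

namespace Pool.Agent.DEC

open Finset Polynomial

variable {n : ℕ}

/-- the polynomial with a given list of coefficients -/
noncomputable def toPoly : List ℤ → ℤ[X]
  | [] => 0
  | a :: l => C a + X * toPoly l

theorem toPoly_append_zero (l : List ℤ) : toPoly (l ++ [0]) = toPoly l := by
  induction l with
  | nil => simp [toPoly]
  | cons a l ih => simp [toPoly, ih]

theorem toPoly_map (e : ℤ) (l : List ℤ) : toPoly (l.map (e * ·)) = C e * toPoly l := by
  induction l with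
  | nil => simp [toPoly]
  | cons a l ih => simp [toPoly, ih]; ring

theorem toPoly_zipWith (l : List ℤ) : ∀ m : List ℤ, l.length = m.length →
    toPoly (List.zipWith (· + ·) l m) = toPoly l + toPoly m := by
  induction l with
  | nil => intro m hm; cases m <;> simp_all [toPoly]
  | cons a l ih =>
    intro m hm
    cases m with
    | nil => simp at hm
    | cons b m =>
      simp only [List.length_cons, Nat.add_right_cancel_iff] at hm
      simp only [List.zipWith_cons_cons, toPoly, ih m hm, map_add]
      ring

theorem toPoly_kstep (e : ℤ) (l : List ℤ) :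
    toPoly (kstep e l) = toPoly l * (1 + C e * X) := by
  unfold kstep
  rw [toPoly_zipWith _ _ (by simp), toPoly_append_zero]
  simp only [toPoly, toPoly_map, map_zero]
  ring

theorem length_kstep (e : ℤ) (l : List ℤ) : (kstep e l).length = l.length + 1 := by
  simp [kstep]

/-- the coefficients of `(1 + X) ^ a (1 - X) ^ b` -/
def kl (a b : ℕ) : List ℤ := (kstep (-1))^[b] ((kstep 1)^[a] [1])

theorem toPoly_kl (a b : ℕ) : toPoly (kl a b) = (1 + X) ^ a * (1 - X) ^ b := by
  unfold kl
  induction b with
  | zero =>
    induction a with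
    | zero => simp [toPoly]
    | succ a ih =>
      rw [Function.iterate_zero, id] at ih ⊢
      rw [Function.iterate_succ_apply', toPoly_kstep, ih]
      simp [pow_succ]
  | succ b ih =>
    rw [Function.iterate_succ_apply', toPoly_kstep, ih, pow_succ (1 - X), ← mul_assoc]
    congr 1
    simp [sub_eq_add_neg]

theorem length_kl (a b : ℕ) : (kl a b).length = a + b + 1 := by
  unfold kl
  induction b with
  | zero =>
    induction a with
    | zero => simp
    | succ a ih =>
      rw [Function.iterate_zero, id] at ih ⊢
      rw [Function.iterate_succ_apply', length_kstep, ih]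
  | succ b ih =>
    rw [Function.iterate_succ_apply', length_kstep, ih]
    ring

/-- weighted sum of the entries of a list -/
def dot (y : ℕ → ℤ) : List ℤ → ℕ → ℤ
  | [], _ => 0
  | a :: l, k => y k * a + dot y l (k + 1)

theorem dot_eq (y : ℕ → ℤ) (l : List ℤ) : ∀ k : ℕ,
    dot y l k = ∑ j ∈ range l.length, y (k + j) * (toPoly l).coeff j := by
  induction l with
  | nil => intro k; simp [dot]
  | cons a l ih =>
    intro k
    rw [dot, ih (k + 1), List.length_cons, Finset.sum_range_succ']
    have h0 : (toPoly (a :: l)).coeff 0 = a := by simp [toPoly]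
    have hs : ∀ j, (toPoly (a :: l)).coeff (j + 1) = (toPoly l).coeff j := by
      intro j
      rw [toPoly, coeff_add, coeff_X_mul, coeff_C_succ, zero_add]
    rw [h0, add_zero, add_comm]
    congr 1
    apply Finset.sum_congr rfl
    intro j _
    rw [hs]
    congr 2
    ring

/-- sums of products over subsets, graded by size -/
theorem sum_card_prod (y : ℕ → ℤ) (e : Fin n → ℤ) :
    ∑ u : Finset (Fin n), y u.card * ∏ i ∈ u, e i =
      ∑ k ∈ range (n + 1), y k * (∏ i, (1 + C (e i) * X : ℤ[X])).coeff k := by
  classical
  have h1 : (∏ i, (1 + C (e i) * X : ℤ[X])) =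
      ∑ u : Finset (Fin n), C (∏ i ∈ u, e i) * X ^ u.card := by
    rw [Finset.prod_one_add, Finset.powerset_univ]
    apply Finset.sum_congr rfl
    intro u _
    rw [Finset.prod_mul_distrib, Finset.prod_const, map_prod]
  rw [h1]
  simp_rw [finsetSum_coeff, coeff_C_mul, coeff_X_pow, Finset.mul_sum]
  rw [Finset.sum_comm]
  apply Finset.sum_congr rfl
  intro u _
  have hu : u.card ∈ range (n + 1) := by
    rw [Finset.mem_range]
    have := Finset.card_le_univ u
    simp only [Fintype.card_fin] at this
    omega
  rw [Finset.sum_eq_single_of_mem _ hu]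
  · simp
  · intro b _ hb
    simp [hb]

/-- **Krawtchouk expansion** -/
theorem sum_y_chi (y : ℕ → ℤ) (x c : Fin n → Bool) :
    ∑ u : Finset (Fin n), y u.card * (chi u x * chi u c) =
      dot y (kl (n - hammingDist x c) (hammingDist x c)) 0 := by
  classical
  simp_rw [chi_mul_chi]
  rw [sum_card_prod, dot_eq, length_kl]
  have hle : hammingDist x c ≤ n := by
    simpa using hammingDist_le_card_fintype (x := x) (y := c)
  have hlen : n - hammingDist x c + hammingDist x c + 1 = n + 1 := by omega
  rw [hlen, toPoly_kl]
  have hprod : (∏ i, (1 + C (if x i = c i then (1 : ℤ) else -1) * X : ℤ[X])) =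
      (1 + X) ^ (n - hammingDist x c) * (1 - X) ^ hammingDist x c := by
    have h1 : ∀ i, (1 + C (if x i = c i then (1 : ℤ) else -1) * X : ℤ[X]) =
        if x i ≠ c i then (1 - X) else (1 + X) := by
      intro i
      by_cases h : x i = c i <;> simp [h, sub_eq_add_neg]
    simp_rw [h1]
    rw [Finset.prod_ite, Finset.prod_const, Finset.prod_const, mul_comm]
    have h2 : (univ.filter fun i => x i ≠ c i).card = hammingDist x c := rfl
    have h3 : (univ.filter fun i => ¬ (x i ≠ c i)).card = n - hammingDist x c := by
      have := Finset.card_filter_add_card_filter_not (s := (univ : Finset (Fin n)))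
        (fun i => x i ≠ c i)
      rw [h2, Finset.card_univ, Fintype.card_fin] at this
      omega
    rw [h2, h3]
  rw [hprod]
  apply Finset.sum_congr rfl
  intro k _
  simp

end Pool.Agent.DEC
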