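import Pool.Agent.DEC.Tables

/-!
# Local packing constraints in a code of length 20 and minimum distance 5
-/

namespace Pool.Agent.DEC

open Finset

/-- minimum distance at least `5` -/
def Dist5 {n : ℕ} (C : Finset (Fin n → Bool)) : Prop :=
  ∀ x ∈ C, ∀ y ∈ C, x ≠ y → 5 ≤ hammingDist x y

variable {n : ℕ}

/-- the coordinates where two words agree -/
def agree (c d : Fin n → Bool) : Finset (Fin n) := univ.filter fun i => d i = c i

theorem card_agree (c d : Fin n → Bool) : (agree c d).card + hammingDist c d = n := by
  have h := Finset.card_filter_add_card_filter_not (s := (univ : Finset (Fin n)))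
    (fun i => d i = c i)
  rw [Finset.card_univ, Fintype.card_fin] at h
  have h2 : (univ.filter fun i => ¬ (d i = c i)).card = hammingDist c d := by
    unfold hammingDist
    congr 1
    ext i
    simp [eq_comm]
  rw [h2] at h
  exact h

theorem dist_add_inter (c d e : Fin n → Bool) :
    hammingDist d e + 2 * (agree c d ∩ agree c e).card ≤
      (agree c d).card + (agree c e).card := by
  classical
  have h1 : hammingDist d e ≤ (agree c d \ agree c e).card + (agree c e \ agree c d).card := by
    refine le_trans ?_ (Finset.card_union_le _ _)
    apply Finset.card_le_card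
    intro i hi
    simp only [Finset.mem_filter, Finset.mem_univ, true_and] at hi
    simp only [agree, Finset.mem_union, Finset.mem_sdiff, Finset.mem_filter, Finset.mem_univ,
      true_and]
    revert hi
    cases d i <;> cases e i <;> cases c i <;> simp
  have h2 := Finset.card_sdiff_add_card_inter (agree c d) (agree c e)
  have h3 := Finset.card_sdiff_add_card_inter (agree c e) (agree c d)
  rw [Finset.inter_comm (agree c e) (agree c d)] at h3
  omega

theorem near_unique {C : Finset (Fin n → Bool)} (hC : Dist5 C) (x : Fin n → Bool) :
    (C.filter fun c => hammingDist x c = 1 ∨ hammingDist x c = 2).card ≤ 1 := by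
  rw [Finset.card_le_one]
  intro a ha b hb
  simp only [Finset.mem_filter] at ha hb
  by_contra hab
  have h1 := hC a ha.1 b hb.1 hab
  have h2 := hammingDist_triangle a x b
  rw [hammingDist_comm a x] at h2
  omega

theorem far_constraint {C : Finset (Fin 20 → Bool)} (hC : Dist5 C) (c : Fin 20 → Bool) :
    (C.filter fun d => hammingDist c d = 17 ∨ hammingDist c d = 18).card +
      7 * (C.filter fun d => hammingDist c d = 19 ∨ hammingDist c d = 20).card ≤ 7 := by
  classical
  have hag : ∀ d, (agree c d).card = 20 - hammingDist c d ∧ hammingDist c d ≤ 20 := by
    intro d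
    have := card_agree c d
    omega
  by_cases h20 : (C.filter fun d => hammingDist c d = 19 ∨ hammingDist c d = 20).Nonempty
  · obtain ⟨d, hd⟩ := h20
    rw [Finset.mem_filter] at hd
    have key : ∀ e ∈ C, 17 ≤ hammingDist c e → e = d := by
      intro e he h17
      by_contra hne
      have h1 := hC d hd.1 e he (Ne.symm hne)
      have h2 := dist_add_inter c d e
      have h3 := hag d
      have h4 := hag e
      have h5 := hd.2
      omega
    have hA : (C.filter fun e => hammingDist c e = 17 ∨ hammingDist c e = 18) = ∅ := by
      rw [Finset.filter_eq_empty_iff]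
      intro e he hcon
      have h1 := key e he (by omega)
      subst h1
      have := hd.2
      omega
    have hB : (C.filter fun e => hammingDist c e = 19 ∨ hammingDist c e = 20).card ≤ 1 := by
      rw [Finset.card_le_one]
      intro a ha b hb
      rw [Finset.mem_filter] at ha hb
      rw [key a ha.1 (by omega), key b hb.1 (by omega)]
    rw [hA, Finset.card_empty]
    omega
  · rw [Finset.not_nonempty_iff_eq_empty] at h20
    rw [h20, Finset.card_empty]
    set S := C.filter fun e => hammingDist c e = 17 ∨ hammingDist c e = 18 with hS
    have hmem : ∀ d ∈ S, d ∈ C ∧ (hammingDist c d = 17 ∨ hammingDist c d = 18) := by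
      intro d hd
      rw [hS, Finset.mem_filter] at hd
      exact hd
    have hdisj : ∀ d ∈ S, ∀ e ∈ S, d ≠ e → Disjoint (agree c d) (agree c e) := by
      intro d hd e he hne
      rw [Finset.disjoint_iff_inter_eq_empty, ← Finset.card_eq_zero]
      have h1 := hC d (hmem d hd).1 e (hmem e he).1 hne
      have h2 := dist_add_inter c d e
      have h3 := hag d
      have h4 := hag e
      have h5 := (hmem d hd).2
      have h6 := (hmem e he).2
      omega
    have hsum : ∑ d ∈ S, (agree c d).card ≤ 20 := by
      rw [← Finset.card_biUnion hdisj]
      have := Finset.card_le_univ (S.biUnion fun d => agree c d)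
      simpa using this
    have hone : (S.filter fun d => hammingDist c d = 18).card ≤ 1 := by
      rw [Finset.card_le_one]
      intro d hd e he
      rw [Finset.mem_filter] at hd he
      by_contra hne
      have h1 := hC d (hmem d hd.1).1 e (hmem e he.1).1 hne
      have h2 := dist_add_inter c d e
      have h3 := hag d
      have h4 := hag e
      have h5 := hd.2
      have h6 := he.2
      omega
    have hthree : 3 * S.card = ∑ d ∈ S, (agree c d).card +
        (S.filter fun d => hammingDist c d = 18).card := by
      have hf := Finset.card_filter (fun d => hammingDist c d = 18) S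
      rw [hf, ← Finset.sum_add_distrib]
      have hc : ∑ _d ∈ S, 3 = 3 * S.card := by
        rw [Finset.sum_const, smul_eq_mul, mul_comm]
      rw [← hc]
      apply Finset.sum_congr rfl
      intro d hd
      have h3 := hag d
      have h5 := (hmem d hd).2
      rcases h5 with h5 | h5
      · rw [h3.1, h5]; rfl
      · rw [h3.1, h5]; rfl
    omega

end Pool.Agent.DEC
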