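import Pool.Agent.DEC.Local

/-!
# A binary code of length 19 with 2048 words and minimum distance 5
-/

namespace Pool.Agent.DEC

open Finset

/-- the first `n` binary digits of a number -/
def bits (n a : ℕ) : Fin n → Bool := fun i => a.testBit i

/-- the number of ones among the first `f` binary digits -/
def wt : ℕ → ℕ → ℕ
  | 0, _ => 0
  | f + 1, a => a % 2 + wt f (a / 2)

theorem wt_eq (n : ℕ) : ∀ a : ℕ, wt n a = ∑ i : Fin n, if a.testBit i then 1 else 0 := by
  induction n with
  | zero => intro a; simp [wt]
  | succ n ih =>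
    intro a
    rw [Fin.sum_univ_succ, wt, ih (a / 2)]
    congr 1
    · simp only [Fin.val_zero, Nat.testBit_zero, decide_eq_true_eq]
      rcases Nat.mod_two_eq_zero_or_one a with h | h <;> simp [h]
    · simp only [Fin.val_succ, Nat.testBit_succ]

theorem hd_bits (n a b : ℕ) : hammingDist (bits n a) (bits n b) = wt n (a ^^^ b) := by
  rw [wt_eq, hammingDist, Finset.card_filter]
  apply Finset.sum_congr rfl
  intro i _
  simp only [bits, Nat.testBit_xor]
  by_cases h1 : a.testBit i = true <;> by_cases h2 : b.testBit i = true <;> simp [h1, h2]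

/-- the combination of a list of numbers (under exclusive or) selected by the digits of `m` -/
def comb : List ℕ → ℕ → ℕ
  | [], _ => 0
  | g :: gs, m => (if m % 2 = 1 then g else 0) ^^^ comb gs (m / 2)

theorem xor4 (a b c d : ℕ) : (a ^^^ b) ^^^ (c ^^^ d) = (a ^^^ c) ^^^ (b ^^^ d) := by
  rw [Nat.xor_assoc, ← Nat.xor_assoc b, Nat.xor_comm b c, Nat.xor_assoc c, ← Nat.xor_assoc a]

theorem xor_mod_two (a b : ℕ) : (a ^^^ b) % 2 = (a + b) % 2 := by
  have h := Nat.testBit_xor a b 0
  simp only [Nat.testBit_zero] at h
  rcases Nat.mod_two_eq_zero_or_one a with ha | ha <;>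
    rcases Nat.mod_two_eq_zero_or_one b with hb | hb <;>
    rcases Nat.mod_two_eq_zero_or_one (a ^^^ b) with hc | hc <;>
    simp [ha, hb, hc] at h <;> omega

theorem xor_div_two (a b : ℕ) : (a ^^^ b) / 2 = (a / 2) ^^^ (b / 2) := by
  apply Nat.eq_of_testBit_eq
  intro i
  rw [Nat.testBit_div_two, Nat.testBit_xor, Nat.testBit_xor, Nat.testBit_div_two,
    Nat.testBit_div_two]

theorem comb_xor (gs : List ℕ) : ∀ m m' : ℕ, comb gs (m ^^^ m') = comb gs m ^^^ comb gs m' := by
  induction gs with
  | nil => intro m m'; simp [comb]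
  | cons g gs ih =>
    intro m m'
    rw [comb, comb, comb, xor4, xor_div_two, ih, xor_mod_two]
    congr 1
    rcases Nat.mod_two_eq_zero_or_one m with ha | ha <;>
      rcases Nat.mod_two_eq_zero_or_one m' with hb | hb
    · have : (m + m') % 2 = 0 := by omega
      simp [ha, hb, this]
    · have : (m + m') % 2 = 1 := by omega
      simp [ha, hb, this]
    · have : (m + m') % 2 = 1 := by omega
      simp [ha, hb, this]
    · have : (m + m') % 2 = 0 := by omega
      simp [ha, hb, this]

/-- generators of the linear part -/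
def gens : List ℕ := [65535, 43690, 52428, 61680, 65280, 114880, 183296, 323584]

/-- coset representatives -/
def reps : List ℕ := [0, 27328, 50848, 9448, 29224, 47176, 7816, 23648]

/-- the words of the code, as numbers; the index is `8 m + k` -/
def wordN (k m : ℕ) : ℕ := reps.getD k 0 ^^^ comb gens m

theorem check : ∀ k < 8, ∀ k' < 8, ∀ m < 256, (k = k' ∧ m = 0) ∨
    5 ≤ wt 19 ((reps.getD k 0 ^^^ reps.getD k' 0) ^^^ comb gens m) := by
  decide +kernel

/-- the map from indices to words -/
def word (p : Fin 8 × Fin 256) : Fin 19 → Bool := bits 19 (wordN p.1 p.2)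

theorem dist_word (p q : Fin 8 × Fin 256) (hpq : p ≠ q) :
    5 ≤ hammingDist (word p) (word q) := by
  unfold word
  rw [hd_bits, wordN, wordN, xor4, ← comb_xor]
  have hlt : (p.2 : ℕ) ^^^ (q.2 : ℕ) < 256 := Nat.xor_lt_two_pow (n := 8) p.2.isLt q.2.isLt
  rcases check p.1 p.1.isLt q.1 q.1.isLt _ hlt with h | h
  · exfalso
    apply hpq
    have h2 : (p.2 : ℕ) = q.2 := by
      have := h.2
      rwa [Nat.xor_eq_zero_iff] at this
    exact Prod.ext (Fin.ext h.1) (Fin.ext h2)
  · exact h

/-- the code -/
def code19 : Finset (Fin 19 → Bool) := univ.image word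

theorem word_injective : Function.Injective word := by
  intro p q h
  by_contra hne
  have := dist_word p q hne
  rw [h, hammingDist_self] at this
  omega

theorem card_code19 : code19.card = 2048 := by
  unfold code19
  rw [Finset.card_image_of_injective _ word_injective]
  simp

theorem dist5_code19 : Dist5 code19 := by
  intro x hx y hy hxy
  unfold code19 at hx hy
  rw [Finset.mem_image] at hx hy
  obtain ⟨p, _, rfl⟩ := hx
  obtain ⟨q, _, rfl⟩ := hy
  exact dist_word p q fun h => hxy (by rw [h])

end Pool.Agent.DEC
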