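import Pool.Agent.DEC.Upper
import Pool.Agent.DEC.Local

/-!
# There is no binary code of length 20 with 4096 words and minimum distance 5
-/

namespace Pool.Agent.DEC

open Finset

/-- indicator of the distances `1, 2` -/
def g2 (i : ℕ) : ℤ := if i = 1 ∨ i = 2 then 1 else 0
/-- indicator of the distances `17, 18` -/
def g18 (i : ℕ) : ℤ := if i = 17 ∨ i = 18 then 1 else 0
/-- indicator of the distances `19, 20` -/
def g20 (i : ℕ) : ℤ := if i = 19 ∨ i = 20 then 1 else 0

theorem w2_eq (i : ℕ) : w2 i = 5 * g2 i + 3 * g18 i + 16 * g20 i := by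
  unfold w2 g2 g18 g20
  split_ifs <;> omega

theorem hd_le (x y : Fin 20 → Bool) : hammingDist x y ≤ 20 := by
  simpa using hammingDist_le_card_fintype (x := x) (y := y)

theorem dot_w1 (x c : Fin 20 → Bool) :
    dot y1 (kl (20 - hammingDist x c) (hammingDist x c)) 0 = 4096 * w1 (hammingDist x c) :=
  table1 _ (Finset.mem_range.mpr (Nat.lt_succ_of_le (hd_le x c)))

theorem dot_w2 (x c : Fin 20 → Bool) :
    dot y2 (kl (20 - hammingDist x c) (hammingDist x c)) 0 = 16384 * w2 (hammingDist x c) :=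
  table2 _ (Finset.mem_range.mpr (Nat.lt_succ_of_le (hd_le x c)))

theorem y1_nonneg (k : ℕ) : 0 ≤ y1 k := by
  unfold y1; split_ifs <;> norm_num

theorem y3_sq (k : ℕ) : y3 k * y3 k = y3 k := by
  unfold y3; split_ifs <;> norm_num

theorem y2_of_y1 (k : ℕ) (h : y1 k = 0) : y2 k = - y3 k := by
  unfold y1 at h
  unfold y2 y3
  split_ifs at h ⊢ <;> omega

theorem y3_of_y1 (k : ℕ) (h : y1 k ≠ 0) : y3 k = 0 := by
  unfold y1 at h
  unfold y3
  split_ifs at h ⊢ <;> omega

section

variable {C : Finset (Fin 20 → Bool)}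

/-- counts as sums -/
theorem sum_ind (p : ℕ → Prop) [DecidablePred p] (x : Fin 20 → Bool) :
    ∑ c ∈ C, (if p (hammingDist x c) then (1 : ℤ) else 0) =
      ((C.filter fun c => p (hammingDist x c)).card : ℤ) := by
  rw [Finset.card_filter]
  push_cast
  rfl

theorem sum_g2 (x : Fin 20 → Bool) : ∑ c ∈ C, g2 (hammingDist x c) =
    ((C.filter fun c => hammingDist x c = 1 ∨ hammingDist x c = 2).card : ℤ) :=
  sum_ind (fun i => i = 1 ∨ i = 2) x

theorem sum_g18 (x : Fin 20 → Bool) : ∑ c ∈ C, g18 (hammingDist x c) =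
    ((C.filter fun c => hammingDist x c = 17 ∨ hammingDist x c = 18).card : ℤ) :=
  sum_ind (fun i => i = 17 ∨ i = 18) x

theorem sum_g20 (x : Fin 20 → Bool) : ∑ c ∈ C, g20 (hammingDist x c) =
    ((C.filter fun c => hammingDist x c = 19 ∨ hammingDist x c = 20).card : ℤ) :=
  sum_ind (fun i => i = 19 ∨ i = 20) x

/-- first identity at a codeword -/
theorem sum_w1_le (hC : Dist5 C) {c : Fin 20 → Bool} (hc : c ∈ C) :
    ∑ d ∈ C, w1 (hammingDist c d) ≤
      28 + ∑ d ∈ C, g18 (hammingDist c d) + 7 * ∑ d ∈ C, g20 (hammingDist c d) := by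
  classical
  have h28 : ∑ d ∈ C, (if d = c then (28 : ℤ) else 0) = 28 := by
    rw [Finset.sum_ite_eq' C c]
    simp [hc]
  rw [← h28, Finset.mul_sum, ← Finset.sum_add_distrib, ← Finset.sum_add_distrib]
  apply Finset.sum_le_sum
  intro d hd
  by_cases hdc : d = c
  · subst hdc
    simp [w1, g18, g20]
  · have h5 := hC c hc d hd (Ne.symm hdc)
    rw [if_neg hdc]
    unfold w1 g18 g20
    split_ifs <;> omega

/-- **nonexistence** -/
theorem no_code (hC : Dist5 C) (hcard : C.card = 4096) : False := by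
  classical
  -- local constraint
  have hfar : ∀ c, ∑ d ∈ C, g18 (hammingDist c d) + 7 * ∑ d ∈ C, g20 (hammingDist c d) ≤ 7 := by
    intro c
    rw [sum_g18, sum_g20]
    exact_mod_cast far_constraint hC c
  have hg18 : ∀ c, 0 ≤ ∑ d ∈ C, g18 (hammingDist c d) := by
    intro c; rw [sum_g18]; positivity
  have hg20 : ∀ c, 0 ≤ ∑ d ∈ C, g20 (hammingDist c d) := by
    intro c; rw [sum_g20]; positivity
  have hg2 : ∀ c, 0 ≤ ∑ d ∈ C, g2 (hammingDist c d) := by
    intro c; rw [sum_g2]; positivity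
  have hg2' : ∀ c, ∑ d ∈ C, g2 (hammingDist c d) ≤ 1 := by
    intro c; rw [sum_g2]; exact_mod_cast near_unique hC c
  have hf0 : fc C ∅ = 4096 := by
    simp [fc, chi_empty, hcard]
  -- the linear programme
  have hW : ∀ c ∈ C, ∑ d ∈ C, w1 (hammingDist c d) ≤ 35 := by
    intro c hc
    have h1 := sum_w1_le hC hc
    have h2 := hfar c
    linarith
  have hLP : ∑ u : Finset (Fin 20), y1 u.card * fc C u ^ 2 =
      4096 * ∑ c ∈ C, ∑ d ∈ C, w1 (hammingDist c d) := by
    rw [sum_y_fc_sq]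
    simp_rw [sum_y_chi_fc, dot_w1, ← Finset.mul_sum]
  have hsplit : ∑ u : Finset (Fin 20), y1 u.card * fc C u ^ 2 =
      35 * 4096 ^ 2 + ∑ u ∈ univ.erase (∅ : Finset (Fin 20)), y1 u.card * fc C u ^ 2 := by
    rw [← Finset.add_sum_erase _ _ (Finset.mem_univ (∅ : Finset (Fin 20))), hf0]
    rfl
  have hR : ∀ u ∈ univ.erase (∅ : Finset (Fin 20)), 0 ≤ y1 u.card * fc C u ^ 2 := by
    intro u _
    exact mul_nonneg (y1_nonneg _) (sq_nonneg _)
  have hR0 := Finset.sum_nonneg hR
  have hS : ∑ c ∈ C, (35 - ∑ d ∈ C, w1 (hammingDist c d)) =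
      35 * 4096 - ∑ c ∈ C, ∑ d ∈ C, w1 (hammingDist c d) := by
    rw [Finset.sum_sub_distrib, Finset.sum_const, hcard]
    norm_num
  have hS0 : 0 ≤ ∑ c ∈ C, (35 - ∑ d ∈ C, w1 (hammingDist c d)) :=
    Finset.sum_nonneg fun c hc => by have := hW c hc; linarith
  have hRz : ∑ u ∈ univ.erase (∅ : Finset (Fin 20)), y1 u.card * fc C u ^ 2 = 0 := by
    linarith
  have hSz : ∑ c ∈ C, (35 - ∑ d ∈ C, w1 (hammingDist c d)) = 0 := by
    linarith
  have hzero : ∀ u : Finset (Fin 20), u ≠ ∅ → y1 u.card ≠ 0 → fc C u = 0 := by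
    intro u hu hy
    have h1 := (Finset.sum_eq_zero_iff_of_nonneg hR).mp hRz u
      (Finset.mem_erase.mpr ⟨hu, Finset.mem_univ _⟩)
    rcases mul_eq_zero.mp h1 with h | h
    · exact absurd h hy
    · exact pow_eq_zero_iff (by norm_num) |>.mp h
  have hW35 : ∀ c ∈ C, ∑ d ∈ C, w1 (hammingDist c d) = 35 := by
    intro c hc
    have h1 := (Finset.sum_eq_zero_iff_of_nonneg
      (fun c hc => by have := hW c hc; linarith)).mp hSz c hc
    linarith
  -- the second identity
  set H : (Fin 20 → Bool) → ℤ := fun x => ∑ u : Finset (Fin 20), y3 u.card * (chi u x * fc C u)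
    with hH
  set τ : (Fin 20 → Bool) → ℤ := fun x => ∑ c ∈ C, w2 (hammingDist x c) with hτ
  have hHτ : ∀ x, H x = 16384 * (21 - τ x) := by
    intro x
    have h1 := sum_y_chi_fc y2 C x
    simp_rw [dot_w2, ← Finset.mul_sum] at h1
    have h2 : ∑ u : Finset (Fin 20), y2 u.card * (chi u x * fc C u) =
        ∑ u : Finset (Fin 20), ((if u = ∅ then (84 * 4096 : ℤ) else 0) -
          y3 u.card * (chi u x * fc C u)) := by
      apply Finset.sum_congr rfl
      intro u _
      by_cases hu : u = ∅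
      · subst hu
        rw [if_pos rfl, chi_empty, hf0]
        simp [y2, y3]
      · rw [if_neg hu]
        by_cases hy : y1 u.card = 0
        · rw [y2_of_y1 _ hy]; ring
        · rw [hzero u hu hy]; ring
    rw [h2, Finset.sum_sub_distrib, Finset.sum_ite_eq' univ (∅ : Finset (Fin 20)),
      if_pos (Finset.mem_univ _)] at h1
    have h3 : H x = ∑ u : Finset (Fin 20), y3 u.card * (chi u x * fc C u) := rfl
    have h4 : τ x = ∑ c ∈ C, w2 (hammingDist x c) := rfl
    rw [← h3, ← h4] at h1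
    linarith
  have hτeq : ∀ x, τ x = 5 * ∑ c ∈ C, g2 (hammingDist x c) + 3 * ∑ c ∈ C, g18 (hammingDist x c)
      + 16 * ∑ c ∈ C, g20 (hammingDist x c) := by
    intro x
    simp only [hτ]
    simp_rw [w2_eq, Finset.sum_add_distrib, ← Finset.mul_sum]
  -- Parseval
  have hHa : ∀ x, H x = ∑ u : Finset (Fin 20), (y3 u.card * fc C u) * chi u x := by
    intro x
    simp only [hH]
    apply Finset.sum_congr rfl
    intro u _
    ring
  have hsq : ∑ x, H x ^ 2 = 2 ^ 20 * ∑ c ∈ C, H c := by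
    simp_rw [hHa]
    rw [parseval]
    congr 1
    have h1 := sum_y_fc_sq y3 C
    have h2 : ∀ u : Finset (Fin 20), (y3 u.card * fc C u) ^ 2 = y3 u.card * fc C u ^ 2 := by
      intro u
      rw [mul_pow, sq (y3 u.card), y3_sq]
    simp_rw [h2, h1]
    apply Finset.sum_congr rfl
    intro c _
    apply Finset.sum_congr rfl
    intro u _
    ring
  have hmean : ∑ x, H x = 0 := by
    simp_rw [hHa]
    rw [sum_expansion]
    simp [y3]
  -- in terms of `h = 21 - τ`
  have hsq' : ∑ x, (21 - τ x) ^ 2 = 64 * ∑ c ∈ C, (21 - τ c) := by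
    simp_rw [hHτ] at hsq
    simp_rw [mul_pow, ← Finset.mul_sum] at hsq
    linarith
  have hmean' : ∑ x, (21 - τ x) = 0 := by
    simp_rw [hHτ] at hmean
    rw [← Finset.mul_sum] at hmean
    linarith
  -- codewords
  have hcode : ∀ c ∈ C, 21 - τ c ≤ 5 := by
    intro c hc
    have h1 := hW35 c hc
    have h2 := sum_w1_le hC hc
    have h3 := hfar c
    have h4 := hg18 c
    have h5 := hg20 c
    have h6 := hg2 c
    rw [hτeq c]
    have h7 : ∑ d ∈ C, g20 (hammingDist c d) ≤ 1 := by linarith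
    linarith
  have hub : ∑ x, (21 - τ x) ^ 2 ≤ 64 * (5 * 4096) := by
    rw [hsq']
    have : ∑ c ∈ C, (21 - τ c) ≤ ∑ _c ∈ C, 5 := Finset.sum_le_sum hcode
    rw [Finset.sum_const, hcard] at this
    norm_num at this ⊢
    linarith
  -- pointwise inequality
  have hpt : ∀ x, 2 * ∑ c ∈ C, g2 (hammingDist x c) - 2 * ∑ c ∈ C, g20 (hammingDist x c) ≤
      (21 - τ x) ^ 2 + (21 - τ x) := by
    intro x
    rw [hτeq x]
    have h1 := hg2 x
    have h2 := hg2' x
    have h3 := hg18 x
    have h4 := hg20 x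
    generalize (∑ c ∈ C, g2 (hammingDist x c)) = a at *
    generalize (∑ c ∈ C, g18 (hammingDist x c)) = b at *
    generalize (∑ c ∈ C, g20 (hammingDist x c)) = e at *
    have hint : ∀ z : ℤ, 0 ≤ z ^ 2 + z := by
      intro z
      rcases le_or_gt 0 z with hz | hz
      · positivity
      · have : z ≤ -1 := by omega
        nlinarith
    rcases (by omega : a = 0 ∨ a = 1) with ha | ha
    · have := hint (21 - (5 * a + 3 * b + 16 * e))
      rw [ha] at this ⊢
      linarith
    · rcases le_or_gt 1 e with he | he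
      · have := hint (21 - (5 * a + 3 * b + 16 * e))
        rw [ha] at this ⊢
        linarith
      · have he0 : e = 0 := by omega
        rw [ha, he0]
        have h9 : 0 ≤ (b - 5) * (b - 6) := by
          rcases le_or_gt b 5 with hb | hb
          · nlinarith
          · have : 6 ≤ b := by omega
            nlinarith
        nlinarith
  have hsum := Finset.sum_le_sum (s := (univ : Finset (Fin 20 → Bool))) fun x _ => hpt x
  rw [Finset.sum_sub_distrib, Finset.sum_add_distrib, ← Finset.mul_sum, ← Finset.mul_sum,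
    hmean', add_zero] at hsum
  have hc2 : ∑ x : Fin 20 → Bool, ∑ c ∈ C, g2 (hammingDist x c) = 4096 * 210 := by
    rw [Finset.sum_comm]
    simp_rw [sum_hammingDist]
    rw [Finset.sum_const, hcard, nsmul_eq_mul]
    congr 1
  have hc20 : ∑ x : Fin 20 → Bool, ∑ c ∈ C, g20 (hammingDist x c) = 4096 * 21 := by
    rw [Finset.sum_comm]
    simp_rw [sum_hammingDist]
    rw [Finset.sum_const, hcard, nsmul_eq_mul]
    congr 1
  rw [hc2, hc20] at hsum
  linarith

end

end Pool.Agent.DEC
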