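import Pool.Agent.DEC.Main
import Pool.Agent.DEC.Lower

/-!
# Shortening
-/

namespace Pool.Agent.DEC

open Finset

variable {n : ℕ}

theorem hd_tail (x y : Fin (n + 1) → Bool) (h : x 0 = y 0) :
    hammingDist (Fin.tail x) (Fin.tail y) = hammingDist x y := by
  classical
  unfold hammingDist
  rw [Finset.card_filter, Finset.card_filter, Fin.sum_univ_succ,
    if_neg (show ¬ (x 0 ≠ y 0) from fun hh => hh h), zero_add]
  rfl

theorem shorten (C : Finset (Fin (n + 1) → Bool)) (hC : Dist5 C) :
    ∃ C' : Finset (Fin n → Bool), Dist5 C' ∧ C.card ≤ 2 * C'.card := by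
  classical
  have key : ∀ b : Bool, ∃ C' : Finset (Fin n → Bool), Dist5 C' ∧
      C'.card = (C.filter fun x => x 0 = b).card := by
    intro b
    refine ⟨(C.filter fun x => x 0 = b).image Fin.tail, ?_, ?_⟩
    · intro x hx y hy hxy
      rw [Finset.mem_image] at hx hy
      obtain ⟨p, hp, rfl⟩ := hx
      obtain ⟨q, hq, rfl⟩ := hy
      rw [Finset.mem_filter] at hp hq
      rw [hd_tail p q (by rw [hp.2, hq.2])]
      exact hC p hp.1 q hq.1 fun h => hxy (by rw [h])
    · apply Finset.card_image_of_injOn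
      intro p hp q hq h
      simp only [Finset.coe_filter, Set.mem_ofPred_eq] at hp hq
      rw [← Fin.cons_self_tail p, ← Fin.cons_self_tail q, h, hp.2, hq.2]
  have hsplit : C.card = (C.filter fun x => x 0 = true).card +
      (C.filter fun x => x 0 = false).card := by
    rw [← Finset.card_filter_add_card_filter_not (s := C) (fun x => x 0 = true)]
    congr 2
    ext x
    simp
  obtain ⟨C1, h1, h1'⟩ := key true
  obtain ⟨C2, h2, h2'⟩ := key false
  rcases le_total C1.card C2.card with h | h
  · exact ⟨C2, h2, by omega⟩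
  · exact ⟨C1, h1, by omega⟩

theorem no_long_code (k : ℕ) : ∀ C : Finset (Fin (20 + k) → Bool), Dist5 C →
    ¬ 2 ^ (12 + k) ≤ C.card := by
  induction k with
  | zero =>
    intro C hC hcard
    obtain ⟨D, hD, hDc⟩ := Finset.exists_subset_card_eq (show 4096 ≤ C.card by simpa using hcard)
    exact no_code (C := D) (fun x hx y hy => hC x (hD hx) y (hD hy)) hDc
  | succ k ih =>
    intro C hC hcard
    obtain ⟨C', hC', hc⟩ := shorten (n := 20 + k) C hC
    refine ih C' hC' ?_
    have : 2 ^ (12 + (k + 1)) = 2 * 2 ^ (12 + k) := by rw [← Nat.add_assoc, pow_succ]; ring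
    omega

end Pool.Agent.DEC
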