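import Pool.Agent.DEC.Kraw

/-!
# The two numerical identities in dimension 20
-/

namespace Pool.Agent.DEC

/-- multipliers of the linear programme -/
def y1 (k : ℕ) : ℤ :=
  if k = 0 then 35 else if k = 1 ∨ k = 20 then 15 else if k = 2 ∨ k = 19 then 15
  else if k = 3 ∨ k = 18 then 5 else if k = 4 ∨ k = 17 then 5 else if k = 5 ∨ k = 16 then 1
  else if k = 6 ∨ k = 15 then 1 else 0

/-- multipliers of the second identity -/
def y2 (k : ℕ) : ℤ :=
  if k = 0 then 84 else if k = 1 ∨ k = 20 then -36 else if k = 2 ∨ k = 19 then 45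
  else if k = 3 ∨ k = 18 then -15 else if k = 4 ∨ k = 17 then 20 else if k = 5 ∨ k = 16 then -4
  else if k = 6 ∨ k = 15 then 6 else if k = 10 ∨ k = 11 then -1 else 0

/-- indicator of the middle layers -/
def y3 (k : ℕ) : ℤ := if k = 10 ∨ k = 11 then 1 else 0

/-- weights by distance, first identity -/
def w1 (i : ℕ) : ℤ :=
  if i = 0 then 28 else if i = 1 ∨ i = 2 then 7 else if i = 3 ∨ i = 4 then 1
  else if i = 17 ∨ i = 18 then 1 else if i = 19 ∨ i = 20 then 7 else 0

/-- weights by distance, second identity -/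
def w2 (i : ℕ) : ℤ :=
  if i = 1 ∨ i = 2 then 5 else if i = 17 ∨ i = 18 then 3 else if i = 19 ∨ i = 20 then 16 else 0

theorem table1 : ∀ w ∈ Finset.range 21, dot y1 (kl (20 - w) w) 0 = 4096 * w1 w := by
  decide +kernel

theorem table2 : ∀ w ∈ Finset.range 21, dot y2 (kl (20 - w) w) 0 = 16384 * w2 w := by
  decide +kernel

end Pool.Agent.DEC
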