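import Pool.Agent.DEC.Tables

/-!
# There is no binary code of length 20 with 4096 words and minimum distance 5
-/

namespace Pool.Agent.DEC

open Finset

variable {n : ℕ}

/-- character sums of a code -/
def fc (C : Finset (Fin n → Bool)) (u : Finset (Fin n)) : ℤ := ∑ c ∈ C, chi u c

theorem sum_y_chi_fc (y : ℕ → ℤ) (C : Finset (Fin n → Bool)) (x : Fin n → Bool) :
    ∑ u : Finset (Fin n), y u.card * (chi u x * fc C u) =
      ∑ c ∈ C, dot y (kl (n - hammingDist x c) (hammingDist x c)) 0 := by
  simp_rw [← sum_y_chi, fc, Finset.mul_sum]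
  rw [Finset.sum_comm]

theorem sum_y_fc_sq (y : ℕ → ℤ) (C : Finset (Fin n → Bool)) :
    ∑ u : Finset (Fin n), y u.card * fc C u ^ 2 =
      ∑ x ∈ C, ∑ u : Finset (Fin n), y u.card * (chi u x * fc C u) := by
  rw [Finset.sum_comm]
  apply Finset.sum_congr rfl
  intro u _
  rw [← Finset.mul_sum, ← Finset.sum_mul, sq]
  rfl

theorem parseval (a : Finset (Fin n) → ℤ) :
    ∑ x : Fin n → Bool, (∑ u : Finset (Fin n), a u * chi u x) ^ 2 = 2 ^ n * ∑ u, a u ^ 2 := by
  classical
  have h1 : ∀ x : Fin n → Bool, (∑ u : Finset (Fin n), a u * chi u x) ^ 2 =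
      ∑ u : Finset (Fin n), ∑ v : Finset (Fin n), a u * a v * (chi u x * chi v x) := by
    intro x
    rw [sq, Finset.sum_mul_sum]
    apply Finset.sum_congr rfl
    intro u _
    apply Finset.sum_congr rfl
    intro v _
    ring
  simp_rw [h1]
  rw [Finset.sum_comm]
  simp_rw [Finset.sum_comm (s := (univ : Finset (Fin n → Bool))), ← Finset.mul_sum,
    sum_chi_mul_chi]
  rw [Finset.mul_sum]
  apply Finset.sum_congr rfl
  intro u _
  rw [Finset.sum_eq_single u]
  · simp; ring
  · intro v _ hv
    rw [if_neg (Ne.symm hv), mul_zero]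
  · intro h; exact absurd (Finset.mem_univ u) h

theorem sum_expansion (a : Finset (Fin n) → ℤ) :
    ∑ x : Fin n → Bool, ∑ u : Finset (Fin n), a u * chi u x = 2 ^ n * a ∅ := by
  classical
  rw [Finset.sum_comm]
  simp_rw [← Finset.mul_sum]
  rw [Finset.sum_eq_single ∅]
  · simp [chi_empty, mul_comm]
  · intro u _ hu
    rw [sum_chi u hu, mul_zero]
  · intro h; exact absurd (Finset.mem_univ _) h

/-- the number of points of the cube at a given distance from a point, with weights -/
theorem sum_hammingDist (g : ℕ → ℤ) (c : Fin n → Bool) :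
    ∑ x : Fin n → Bool, g (hammingDist x c) = ∑ k ∈ range (n + 1), (n.choose k : ℤ) * g k := by
  classical
  have h1 : ∑ x : Fin n → Bool, g (hammingDist x c) =
      ∑ u : Finset (Fin n), g u.card := by
    apply Finset.sum_bij' (i := fun x _ => univ.filter fun i => x i ≠ c i)
      (j := fun u _ => fun i => if i ∈ u then !(c i) else c i)
    · intro x _; exact Finset.mem_univ _
    · intro u _; exact Finset.mem_univ _
    · intro x _
      funext i
      by_cases h : x i = c i
      · simp [h]
      · have : x i = !(c i) := by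
          revert h; cases x i <;> cases c i <;> simp
        simp [this]
    · intro u _
      ext i
      by_cases h : i ∈ u <;> simp [h]
    · intro x _
      rfl
  rw [h1, ← Finset.powerset_univ, Finset.sum_powerset_apply_card]
  simp

end Pool.Agent.DEC
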